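import Pool.Agent.H40.ST2.Mono

/-!
Matrices with fewer rows than columns whose rows are strictly monotone (each one increasing or
decreasing) have a transversal.
-/

set_option autoImplicit false

namespace Pool.Agent.Results.MP_3d056f_co.MonotoneRows

universe u

/-- Let the symbols be linearly ordered and let `M` be an `m × n` matrix, `m < n` (in particular
`m = n - 1`), each of whose rows is strictly increasing or strictly decreasing (in any
combination). Then `M` has a transversal: one cell in every row, the cells in distinct columns and
with distinct symbols. -/
theorem result (m n : ℕ) (hmn : m < n) (α : Type u) [LinearOrder α] (M : Fin m → Fin n → α)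
    (hM : ∀ i, StrictMono (M i) ∨ StrictAnti (M i)) :
    ∃ f : Fin m → Fin n, Function.Injective f ∧ Function.Injective (fun i => M i (f i)) :=
  Pool.Agent.H40.ST2.mono_rows M hM (by rw [Fintype.card_fin, Fintype.card_fin]; exact hmn)

end Pool.Agent.Results.MP_3d056f_co.MonotoneRows
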