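import Pool.Agent.H40.ST2.Near

/-!
Row-latin `m × n` matrices, `m < n`, with `t` arbitrary rows, `(t + 1) ^ 2 < 4 n`, all of whose
other rows are equal (or agree with a fixed row in enough columns) have a transversal.
-/

set_option autoImplicit false

namespace Pool.Agent.Results.MP_3d056f_co.NearlyConstant

universe u

/-- Let `M` be a row-latin `m × n` matrix over an arbitrary set of symbols, let `β` be an injective
row of length `n` and let `E` be a set of `t` rows, `(t + 1) ^ 2 < 4 n`. Suppose that
(1) `m < n` and all rows outside `E` are equal to `β`, or, more generally,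
(2) for every `k` at most `k` of the rows outside `E` agree with `β` in at most `t + 1 + k`
columns.
Then `M` has a transversal: one cell in every row, the cells in distinct columns and with distinct
symbols. -/
theorem result (m n : ℕ) (α : Type u) (M : Fin m → Fin n → α)
    (hM : ∀ i, Function.Injective (M i)) (β : Fin n → α) (hβ : Function.Injective β)
    (E : Finset (Fin m)) (hE : (E.card + 1) ^ 2 < 4 * n)
    (h : (m < n ∧ ∀ i, i ∉ E → M i = β) ∨
      ∀ k : ℕ, {i | i ∉ E ∧ {x | M i x = β x}.ncard ≤ E.card + 1 + k}.ncard ≤ k) :
    ∃ f : Fin m → Fin n, Function.Injective f ∧ Function.Injective (fun i => M i (f i)) := by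
  refine Pool.Agent.H40.ST2.near_constant M hM β hβ E (by rw [Fintype.card_fin]; exact hE) ?_
  rcases h with ⟨hmn, h⟩ | h
  · intro k
    have h1 : ∀ i, i ∉ E → {x | M i x = β x}.ncard = n := by
      intro i hi
      have h2 : {x | M i x = β x} = Set.univ := by
        rw [Set.eq_univ_iff_forall]
        intro x
        change M i x = β x
        rw [h i hi]
      rw [h2, Set.ncard_univ, Nat.card_eq_fintype_card, Fintype.card_fin]
    by_cases hk : n ≤ E.card + 1 + k
    · have h3 : {i | i ∉ E ∧ {x | M i x = β x}.ncard ≤ E.card + 1 + k} ⊆ ((Eᶜ : Finset (Fin m)) :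
          Set (Fin m)) := by
        rintro i ⟨hi, -⟩
        rw [Finset.mem_coe, Finset.mem_compl]
        exact hi
      refine (Set.ncard_le_ncard h3 (Finset.finite_toSet _)).trans ?_
      rw [Set.ncard_coe_finset, Finset.card_compl, Fintype.card_fin]
      omega
    · have h3 : {i | i ∉ E ∧ {x | M i x = β x}.ncard ≤ E.card + 1 + k} = ∅ := by
        rw [Set.eq_empty_iff_forall_notMem]
        rintro i ⟨hi, h4⟩
        rw [h1 i hi] at h4
        exact hk h4
      rw [h3, Set.ncard_empty]
      exact Nat.zero_le _
  · exact h

end Pool.Agent.Results.MP_3d056f_co.NearlyConstant
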