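import Pool.Agent.H40.ST2.Sparse

/-!
Row-latin `m × n` matrices, `m < n`, in which every symbol occurs in at most two columns (or every
column contains at most two symbols) have a transversal; more generally it is enough that every
submatrix has at most twice as many pairs (column, symbol occurring in it) as symbols.
-/

set_option autoImplicit false

namespace Pool.Agent.Results.MP_3d056f_co.SparseCells

universe u

/-- Let `M` be a row-latin `m × n` matrix, `m < n` (in particular `m = n - 1`), over an arbitrary
set of symbols. A pair `(x, y)` of a column and a symbol which occurs in it is called a cell pair.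
Suppose that one of the following holds.
(1) For all sets `A` of rows and `S` of columns, the submatrix has at most twice as many cell pairs
as symbols.
(2) Every symbol occurs in at most two columns (in any number of rows).
(3) Every column contains at most two distinct symbols.
(4) For every finite set `S` of columns and `T` of symbols there are at most `|S| + |T|` cell
pairs in `S × T` (every component of the bipartite graph of the cell pairs has at most one cycle).
Then `M` has a transversal: one cell in every row, the cells in distinct columns and with distinct
symbols. -/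
theorem result (m n : ℕ) (hmn : m < n) (α : Type u) (M : Fin m → Fin n → α)
    (hM : ∀ i, Function.Injective (M i))
    (h : (∀ (A : Finset (Fin m)) (S : Finset (Fin n)),
        {c : Fin n × α | c.1 ∈ S ∧ ∃ i ∈ A, M i c.1 = c.2}.ncard ≤
          2 * {y : α | ∃ x ∈ S, ∃ i ∈ A, M i x = y}.ncard) ∨
      (∀ y, {x | ∃ i, M i x = y}.ncard ≤ 2) ∨
      (∀ x, (Set.range fun i => M i x).ncard ≤ 2) ∨
      (∀ (S : Finset (Fin n)) (T : Finset α),
        {c : Fin n × α | c.1 ∈ S ∧ c.2 ∈ T ∧ ∃ i, M i c.1 = c.2}.ncard ≤ S.card + T.card)) :
    ∃ f : Fin m → Fin n, Function.Injective f ∧ Function.Injective (fun i => M i (f i)) := by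
  have hc : Fintype.card (Fin m) < Fintype.card (Fin n) := by
    rw [Fintype.card_fin, Fintype.card_fin]
    exact hmn
  rcases h with h | h | h | h
  · exact Pool.Agent.H40.ST2.sparse M hM h hc
  · exact Pool.Agent.H40.ST2.two_columns M hM h hc
  · rcases Nat.eq_zero_or_pos m with hm | hm
    · subst hm
      exact ⟨fun i => i.elim0, fun i => i.elim0, fun i => i.elim0⟩
    · have : Nonempty (Fin m) := ⟨⟨0, hm⟩⟩
      exact Pool.Agent.H40.ST2.sparse M hM (Pool.Agent.H40.ST2.sparse_of_pseudoforest M hM
        (Pool.Agent.H40.ST2.pseudoforest_of_two_symbols M hM h)) hc
  · exact Pool.Agent.H40.ST2.sparse M hM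
      (Pool.Agent.H40.ST2.sparse_of_pseudoforest M hM h) hc

end Pool.Agent.Results.MP_3d056f_co.SparseCells
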