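import Pool.Agent.H30.ST.Blocks

/-!
Row-latin `m × n` matrices, `m < n`, with at most three distinct rows have a transversal; more
generally, if the columns split into blocks with disjoint symbol sets and in a largest block there
are at most three distinct restricted rows, or at most four columns.
-/

set_option autoImplicit false

namespace Pool.Agent.Results.MP_3d056f_co.ThreeDistinctRows

universe u

/-- Let `M` be a row-latin `m × n` matrix, `m < n` (in particular `m = n - 1`), over an arbitrary
set of symbols. Let `b` assign to every column a block such that columns of different blocks have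
no symbol in common, and let `β` be a block with the largest number of columns. If the rows,
restricted to the block `β`, take at most three distinct values, or if `β` has at most four
columns, then `M` has a transversal: one cell in every row, the cells in distinct columns and with
distinct symbols. If `b` is constant this is the case of at most three distinct rows. -/
theorem result (m n : ℕ) (hmn : m < n) (α : Type u) (M : Fin m → Fin n → α)
    (hM : ∀ i, Function.Injective (M i)) (b : Fin n → ℕ)
    (hb : ∀ i i' x x', M i x = M i' x' → b x = b x') (β : ℕ)
    (hβ : ∀ γ, (Finset.univ.filter (fun x => b x = γ)).card ≤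
      (Finset.univ.filter (fun x => b x = β)).card)
    (h3 : (Finset.univ.filter (fun x => b x = β)).card ≤ 4 ∨
      (Set.range (fun (i : Fin m) (x : {x // b x = β}) => M i x)).ncard ≤ 3) :
    ∃ f : Fin m → Fin n, Function.Injective f ∧ Function.Injective (fun i => M i (f i)) := by
  classical
  rcases Nat.eq_zero_or_pos m with hm | hm
  · subst hm
    exact ⟨fun i => i.elim0, fun i => i.elim0, fun i => i.elim0⟩
  let q : Fin (n - 1) → Fin m := fun i => ⟨min i (m - 1), by omega⟩
  obtain ⟨f, hf1, hf2⟩ := Pool.Agent.H30.ST.block_theorem (fun i x => M (q i) x)
    (fun i => hM (q i)) b (fun i i' x x' h => hb _ _ _ _ h) β hβ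
    (by rw [Fintype.card_fin, Fintype.card_fin]; omega) (by
      rcases h3 with h3 | h3
      · exact Or.inl h3
      · refine Or.inr (le_trans (Set.ncard_le_ncard ?_ (Set.finite_range _)) h3)
        rintro _ ⟨i, rfl⟩
        exact ⟨q i, rfl⟩)
  let e : Fin m → Fin (n - 1) := fun i => ⟨i, by have := i.isLt; omega⟩
  have he : Function.Injective e := by
    intro i i' h
    have := congrArg Fin.val h
    exact Fin.ext this
  have hqe : ∀ i, q (e i) = i := by
    intro i
    apply Fin.ext
    change min (i : ℕ) (m - 1) = i
    have := i.isLt
    omega
  refine ⟨fun i => f (e i), hf1.comp he, ?_⟩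
  intro i i' h
  apply he
  apply hf2
  simp only [hqe]
  exact h

end Pool.Agent.Results.MP_3d056f_co.ThreeDistinctRows
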